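import Pool.Agent.H14.BR.Defs
import Pool.Agent.H46.RF.Stm

/-!
Crew BR (`MP_9214e0_lc`): random forcing with literal Borel sets. GOAL: `S_GST`, `S_GS2`, `S_GEQ` (the
generic filters on the trees, crew RF, and on the Borel sets correspond to each other, with the
same extensions). Every part is `def S_XXX : Prop` with a paper proof; prove
`theorem xxx (h1 : S_A) (h2 : H46.RF.S_B) ... : H14.BR.S_XXX`. The hypotheses named in the comments may be
used freely, also every statement of crew RF (`H46.RF.S_WRD`, `S_BMS`, `S_BIG`, `S_DM3`, ...).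
Tools for proving that a set is in `M`: see the comment in `Pool/Agent/H46/RF/Stm.lean`.
-/

set_option autoImplicit false

namespace H14.BR

open ZFSet (pair)
open Pool.Agent.W868
open MeasureTheory H14.ES H46.RF

/-- ZRL (120 lines, from RF.WRD). Reals and words. (`Re`: the functions `ω → {0, 1}` in the power set
in `M` of `ω × {0, 1}`; `zr s = ⋃ L`.) -/
def S_ZRL : Prop :=
  (∀ r s n, ini r n ⊆ zr s ↔ ∀ i < n, r i = s i) ∧ Function.Injective zr ∧
  ∀ M : Set ZFSet.{0}, IsZF M → (∃ Re ∈ M, ∀ x, x ∈ Re ↔ IsRealIn M x) ∧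
    (∀ s, ∀ L ∈ M, (∀ z, z ∈ L ↔ ∃ n, z = ini s n) → zr s ∈ M) ∧
    (∀ s, zr s ∈ M → ∃ L ∈ M, ∀ z, z ∈ L ↔ ∃ n, z = ini s n)

/-- OPH (50 lines, from ZRL, RF.WRD). The operation `T ↦` (closed set of `M` coded by `T`):
`h T = {x ∈ Re | ∀ z ∈ Wd, z ⊆ x → z ∈ T}` (`IsZF.sep'`). -/
def S_OPH : Prop := ∀ M : Set ZFSet.{0}, IsZF M →
  ∃ h : ZFSet.{0} → ZFSet.{0}, DfnF M M (fun w : Fin 1 → ZFSet.{0} => h (w 0)) ∧
    ∀ T ∈ M, IsB M T (h T)

/-- KO1 (150 lines, from ZRL, RF.WRD). König's lemma in `M`. `E = {z ∈ T | z has extensions in `T` of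
every length}` is in `M`, by separation from `T` (lengths: the set `Ln` of RF.WRD). `L` = the `z ∈ E`
such that for every `y ∈ E` with `y ⊆ z`, `y ≠ z`: if `y ∪ {(n, 0)} ∈ E` (`n` = length of `y`) then
`y ∪ {(n, 0)} ⊆ z` (the leftmost path). By compactness (a word in `E` has a one-step extension in `E`)
and `ini r 0 ∈ E`, `L` has exactly one element of every length and they form a chain: `L` = the set
of all `ini s n` for some `s`; `s ∈ body T`. -/
def S_KO1 : Prop := ∀ M : Set ZFSet.{0}, IsZF M → ∀ T ∈ M, IsTree T → (body T).Nonempty →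
  ∃ s ∈ body T, zr s ∈ M

/-- KON (50 lines, from KO1, ZRL, RF.WRD). If `r ∈ body T`, `ini r n ∉ T'`, apply KO1 to the tree of
the `z ∈ T` with `z ⊆ ini r n` or `ini r n ⊆ z`. -/
def S_KON : Prop := ∀ M : Set ZFSet.{0}, IsZF M → ∀ T ∈ M, ∀ T' ∈ M, IsTree T → IsTree T' →
  (∀ s ∈ body T, zr s ∈ M → s ∈ body T') → body T ⊆ body T'

/-- CLO (150 lines, from ZRL, OPH, RF.WRD). Closed sets are Borel. Let `S` be a `σ`-algebra of `M`.
It contains the whole space (`basic` with `n = 0`), the empty set, and finite unions (`union` for the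
sequence `b, c, c, c, ...`); so for every `n` the set `b_n = {x | the initial segment of x of length n
is not in T}`, a finite union of basic sets (induction over a finite set of words). The sequence
`f = {pair (nat n) b_n}` is in `M` by separation from `ω × S`; the complement of its union is `b`. -/
def S_CLO : Prop := ∀ M : Set ZFSet.{0}, IsZF M → ∀ T ∈ M, IsTree T → ∀ b, IsB M T b → IsBorelIn M b

/-- NU1 (80 lines, from KO1, ZRL, RF.WRD, RF.BMS). Let `2 ^ (-k) < mu (body T)` and `F` a cover of `b`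
of measure at most `2 ^ (-k)`. The tree `T₂` of the `z ∈ T` without initial segment in `F` is in `M`,
`body T₂ = body T \ {r | ∃ n, ini r n ∈ F}` is not empty; KO1 gives a point of `b` that is not
covered. -/
def S_NU1 : Prop := ∀ M : Set ZFSet.{0}, IsZF M → ∀ T ∈ P M, ∀ b, Ins M T b → ¬ IsNullIn M b

/-- DMQ (130 lines, from RF.WRD, RF.BMS; copy of the proof of RF.BIG). `1 ≤ mu (body T) + 2 ^ (-k)` iff
for all `n ≥ k`, `mu (lev T n)ᶜ ≤ 2 ^ (-k) = mu (cyl 0 k)`, iff the number of words of length `n` not in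
`T` is at most the number of words of length `n` which extend `0^k`, iff there is an injection, a
finite set of elements of `M`. -/
def S_DMQ : Prop := ∀ M : Set ZFSet.{0}, IsZF M → ∀ T, IsTree T → ∀ k,
  (1 ≤ mu ℕ (body T) + (2 ^ k)⁻¹ ↔ ∀ n, k ≤ n → ∃ f ∈ M,
    (∀ x, ini x n ∉ T → ∃ y ∈ cyl (fun _ => false) k, pair (ini x n) (ini y n) ∈ f) ∧
    ∀ a a' b, pair a b ∈ f → pair a' b ∈ f → a = a')

/-- DMD (120 lines, from DMQ, RF.WRD). Definability: with `Wd`, `Ln` and the set of all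
`pair (nat k) (ini (fun _ => false) k)` in `M`. -/
def S_DMD : Prop := ∀ M : Set ZFSet.{0}, IsZF M → Dfn M M (fun w : Fin 2 → ZFSet.{0} =>
  IsTree (w 0) ∧ ∃ k, w 1 = nat k ∧ 1 ≤ mu ℕ (body (w 0)) + (2 ^ k)⁻¹)

/-- PMD (130 lines, from RF.BIG, RF.DM3, RF.WRD, RF.BMS). The set of conditions: `0 < mu (body T)` iff
there are `r`, `n` with `Half T r n m` for all `m ≥ n` (RF.DM3; continuity from above), which is
definable by RF.BIG; separation from the power set in `M` of `Wd`. -/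
def S_PMD : Prop := ∀ M : Set ZFSet.{0}, IsZF M → ∃ Q ∈ M, ∀ T, T ∈ Q ↔ T ∈ P M

/-- CHO (70 lines). Countable choice in `M`: `IsZFC.choice` for the family of the sets
`{pair (nat n) a | a ∈ A, R (nat n) a}`. -/
def S_CHO : Prop := ∀ M : Set ZFSet.{0}, IsZFC M → ∀ R : ZFSet.{0} → ZFSet.{0} → Prop,
  Dfn M M (fun w : Fin 2 → ZFSet.{0} => R (w 0) (w 1)) → ∀ A ∈ M,
  (∀ n : ℕ, ∃ a ∈ A, R (nat n) a) → ∃ g ∈ M, (∀ z ∈ g, ∃ n : ℕ, ∃ a ∈ A, z = pair (nat n) a ∧
    R (nat n) a) ∧ ∀ n : ℕ, ∃! a, pair (nat n) a ∈ g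

/-- SGR (130 lines, from DMD, ZRL, RF.WRD). The set of the regular sets of reals is in `M`: separation
from the power set in `M` of `Re`. `Ins M T b`: `∀ x ∈ Re, (∀ z ∈ Wd, z ⊆ x → z ∈ T) → x ∈ b`. -/
def S_SGR : Prop := ∀ M : Set ZFSet.{0}, IsZF M →
  ∃ S ∈ M, ∀ b, b ∈ S ↔ b ∈ M ∧ (∀ x ∈ b, IsRealIn M x) ∧ Reg M b

/-- UN0 (50 lines, pure measure). `(⋃ A i ∪ ⋂ B i)ᶜ ⊆ ⋃ (A i ∪ B i)ᶜ` has measure at most
`∑ 2 ^ (-(i + k + 2)) = 2 ^ (-(k + 1))`; continuity from below for `⋃_{i < n} A i`. -/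
def S_UN0 : Prop := ∀ A B : ℕ → Set (ℕ → Bool), (∀ i, MeasurableSet (A i)) →
  (∀ i, MeasurableSet (B i)) → ∀ k, (∀ i, 1 ≤ mu ℕ (A i ∪ B i) + (2 ^ (i + k + 2))⁻¹) →
  ∃ n, 1 ≤ mu ℕ ((⋃ i ∈ Finset.range n, A i) ∪ ⋂ i, B i) + (2 ^ k)⁻¹

/-- UNI (200 lines, from CHO, DMD, UN0, ZRL, RF.WRD, RF.BMS). Countable unions of regular sets are
regular. Given `k`, choose in `M` (CHO) a sequence `i ↦ pair T_i T'_i` as in `Reg M b_i` with error
`2 ^ (-(i + k + 2))` (definability of `i ↦ i + k + 2`: `k + 2` fold successor of `i`); `T` = the union of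
`T_i`, `i < n` (finite union, in `M` by `union_mem`; body of a union of two trees = union of the
bodies) and `T' = {z ∈ Wd | ∀ i, z ∈ T'_i}`, with `n` from UN0. -/
def S_UNI : Prop := ∀ M : Set ZFSet.{0}, IsZFC M → ∀ f ∈ M, (∀ i : ℕ, ∃! b, pair (nat i) b ∈ f) →
  (∀ (i : ℕ) b, pair (nat i) b ∈ f → Reg M b) →
  ∀ c, (∀ x, x ∈ c ↔ ∃ (i : ℕ) (b : ZFSet.{0}), pair (nat i) b ∈ f ∧ x ∈ b) → Reg M c

/-- REG (120 lines, from SGR, UNI, ZRL, RF.WRD, RF.BMS). Borel sets are regular: the set `S` of SGR is a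
`σ`-algebra of `M` (`basic`: `T` = words compatible with `ini r n`, `T'` = words `z` with
`¬ ini r n ⊆ z`; `compl`: exchange `T` and `T'`; `union`: UNI). -/
def S_REG : Prop := ∀ M : Set ZFSet.{0}, IsZFC M → ∀ b, IsBorelIn M b → Reg M b

/-- NU2 (70 lines, from REG, ZRL, RF.WRD, RF.BMS). Otherwise all `T` inside have null bodies, and for
every `k`, REG gives `T'` outside with `mu (body T')ᶜ ≤ 2 ^ (-k)`; `F = Wd \ T'` shows that `b` is null. -/
def S_NU2 : Prop := ∀ M : Set ZFSet.{0}, IsZFC M → ∀ b ∈ Rnd M, ∃ T ∈ P M, Ins M T b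

/-- BDF (120 lines, from ZRL, RF.WRD). The set of the Borel sets of `M` is in `M`: `IsSigma M S` is a
definable property of `S`. -/
def S_BDF : Prop := ∀ M : Set ZFSet.{0}, IsZF M → ∃ B ∈ M, ∀ b, b ∈ B ↔ IsBorelIn M b

/-- RND (50 lines, from BDF, NU1, NU2, PMD, ZRL, RF.WRD). `b ∈ Rnd M` iff `b` is Borel and
`∃ T ∈ P M, Ins M T b`. -/
def S_RND : Prop := ∀ M : Set ZFSet.{0}, IsZFC M → ∃ R ∈ M, ∀ b, b ∈ R ↔ b ∈ Rnd M

/-- TR2 (150 lines; RF.TRN with a relation). Translation of names: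
`π x = {pair (π y) q | pair y p ∈ x, q ∈ Q, R p q}`. -/
def S_TR2 : Prop := ∀ M : Set ZFSet.{0}, IsZF M → ∀ R : ZFSet.{0} → ZFSet.{0} → Prop,
  Dfn M M (fun w : Fin 2 → ZFSet.{0} => R (w 0) (w 1)) → ∀ Q ∈ M,
  ∀ G G' : Set ZFSet.{0}, (∀ p ∈ M, p ∈ G' ↔ ∃ q ∈ Q, R p q ∧ q ∈ G) → ext M G' ⊆ ext M G

/-- GST (120 lines, from CLO, NU1, NU2, KON, PMD, OPH, ZRL, RF.WRD, RF.BMS). `st M G` is generic.
`nonempty`: the whole space. `dir`: `U ∈ G` below both trees; its closed set (OPH) is Borel (CLO) and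
not null (NU1), hence in `st M G`. `meet`: `D' = {T ∈ P M | ∃ b ∈ D, Ins M T b} ∈ M` (PMD) is dense:
for `S ∈ P M` its closed set `c` is in `Rnd M`, take `b ∈ D`, `b ⊆ c`, `T' ∈ P M` inside `b` (NU2);
`body T' ⊆ body S` (KON), so `T' ∩ S ∈ P M` (same body as `T'`) is in `D'` and below `S`. -/
def S_GST : Prop := ∀ M : Set ZFSet.{0}, IsZFC M → ∀ G, IsGen M G → IsGenB M (st M G)

/-- GS2 (80 lines, from CLO, NU1, KON, PMD, RF.WRD, RF.BMS). `←`: clear. `→`: `T' ∈ G` with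
`Ins M T' b`, so `body T' ⊆ body T` (KON). The set of the `S ∈ P M` with `S ⊆ T` or
`mu (body (S ∩ T')) = 0` is dense and in `M` (PMD), and `G` meets it; the second case is impossible
because `G` contains a common refinement of `S` and `T'`. -/
def S_GS2 : Prop := ∀ M : Set ZFSet.{0}, IsZFC M → ∀ G, IsGen M G → ∀ T ∈ P M, ∀ b, IsB M T b →
  (b ∈ st M G ↔ T ∈ G)

/-- GEQ (70 lines, from TR2, GS2, RND, PMD, OPH, ZRL, RF.WRD). `⊆`: TR2 with `R b T` iff `b ∈ Rnd M`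
and `Ins M T b`, `Q` the set of PMD. `⊇`: TR2 with `R T b` iff `T ∈ P M` and `b = h T` (OPH), `Q` the set
of RND (`p ∈ G → p ∈ P M`, GS2). -/
def S_GEQ : Prop := ∀ M : Set ZFSet.{0}, IsZFC M → ∀ G, IsGen M G → ext M (st M G) = ext M G

end H14.BR
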