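import Pool.Agent.H14.ES.AsmT
import Pool.Agent.H14.BR.Stm
import Pool.Agent.H14.BR.RNDc
import Pool.Agent.H1.BR.NU2
import Pool.Agent.H2.BR.BDF
import Pool.Agent.H19.BR.ZRL
import Pool.Agent.H28.BR.GS2
import Pool.Agent.H28.BR.REG
import Pool.Agent.H35.BR.CHO
import Pool.Agent.H35.BR.TR2
import Pool.Agent.H36.BR.KON
import Pool.Agent.H39.BR.DMD
import Pool.Agent.H42.BR.CLO
import Pool.Agent.H43.BR.KO1
import Pool.Agent.H50.BR.DMQ
import Pool.Agent.H75.BR.PMD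
import Pool.Agent.H77.BR.NU1
import Pool.Agent.H77.BR.UN0
import Pool.Agent.H78.BR.UNI

/-!
Assembly of block II of `MP_9214e0_lc` for random forcing with literal Borel sets.
-/

set_option autoImplicit false

namespace H14.BR

open Pool.Agent.W868
open MeasureTheory H14.ES H46.RF

theorem b_ZRL : S_ZRL := H19.BR.zrl
theorem b_OPH : S_OPH := H19.BR.oph
theorem b_KO1 : S_KO1 := H43.BR.ko1 b_ZRL
theorem b_KON : S_KON := Pool.Agent.H36.BR.kon b_KO1 wrd
theorem b_CLO : S_CLO := H42.BR.clo b_ZRL b_OPH wrd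
theorem b_NU1 : S_NU1 := H77.BR.nu1 b_KO1 b_ZRL wrd
theorem b_DMD : S_DMD := H39.BR.dmd (H50.BR.dmq wrd H16.RF.bms)
theorem b_PMD : S_PMD := H75.BR.pmd a_BIG H16.RF.dm3 wrd H16.RF.bms
theorem b_SGR : S_SGR := H39.BR.sgr b_DMD b_ZRL
theorem b_UNI : S_UNI := H78.BR.t_UNI H35.BR.cho b_DMD H77.BR.un0 b_ZRL wrd H16.RF.bms
theorem b_REG : S_REG := H28.BR.reg b_SGR b_UNI b_ZRL wrd
theorem b_NU2 : S_NU2 := H1.BR.nu2 b_REG b_ZRL wrd H16.RF.bms
theorem b_BDF : S_BDF := H2.BR.bdf b_ZRL wrd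
theorem b_RND : S_RND := H14.RNDc.rnd b_BDF b_NU1 b_NU2 b_PMD b_ZRL wrd
theorem b_GST : S_GST := Pool.Agent.H36.BR.gst b_CLO b_NU1 b_NU2 b_KON b_PMD b_OPH b_ZRL
theorem b_GS2 : S_GS2 := H28.BR.gs2 b_CLO b_NU1 b_KON b_PMD wrd
theorem b_GEQ : S_GEQ := H1.BR.geq H35.BR.tr2 b_GS2 b_RND b_PMD b_OPH

/-- a generic filter on the Borel sets, as a set of conditions -/
theorem coe_st (M : Set ZFSet.{0}) (G : Set ZFSet.{0}) :
    ((↑) '' {b : Rnd M | (b : ZFSet.{0}) ∈ st M G} : Set ZFSet.{0}) = st M G := by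
  ext b
  constructor
  · rintro ⟨c, hc, rfl⟩
    exact hc
  · intro hb
    exact ⟨⟨b, hb.1⟩, hb, rfl⟩

/-- the map from the generic filters on the trees to the generic filters on the Borel sets -/
def toB {M : Set ZFSet.{0}} (hM : IsZFC M) (G : H46.RF.Gen M) : GenB M :=
  ⟨{b : Rnd M | (b : ZFSet.{0}) ∈ st M ((↑) '' G.1)}, by
    rw [coe_st]
    exact b_GST M hM _ G.2⟩

theorem measurable_toB {M : Set ZFSet.{0}} (hM : IsZFC M) (hMc : M.Countable) :
    Measurable (toB hM) := by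
  have hcP : Countable (P M) := (hMc.mono fun T hT => hT.1).to_subtype
  refine Measurable.subtype_mk ?_
  rw [measurable_set_iff]
  intro b
  have h1 : (fun G : H46.RF.Gen M => b ∈ {b : Rnd M | (b : ZFSet.{0}) ∈ st M ((↑) '' G.1)}) =
      fun G : H46.RF.Gen M => ∃ T : P M, T ∈ G.1 ∧ Ins M T b := by
    funext G
    apply propext
    constructor
    · rintro ⟨-, T, ⟨T', hT', rfl⟩, h⟩
      exact ⟨T', hT', h⟩
    · rintro ⟨T, hT, h⟩
      exact ⟨b.2, T, ⟨T, hT, rfl⟩, h⟩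
  rw [h1]
  refine Measurable.exists fun T => ?_
  refine Measurable.and ?_ measurable_const
  exact (measurable_set_mem T).comp measurable_subtype_coe

/-- the equivalence of random generics is not essentially free -/
theorem b_main (M : Set ZFSet.{0}) (hM : IsZFC M) (hMc : M.Countable) :
    ¬ EssFree (GenRelB M) := by
  rintro ⟨Γ, iG, iC, Y, iM, iS, iA, hmeas, hfree, f, hf, hred⟩
  refine a_tree M hM hMc ⟨Γ, iG, iC, Y, iM, iS, iA, hmeas, hfree, fun G => f (toB hM G),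
    hf.comp (measurable_toB hM hMc), fun G H => ?_⟩
  rw [← hred]
  unfold GenRelB H46.RF.GenRel toB
  rw [coe_st, coe_st, b_GEQ M hM _ G.2, b_GEQ M hM _ H.2]

end H14.BR
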