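import Pool.Agent.H46.RF.Defs

/-!
Random forcing of `M` with literal Borel sets (crew BR, `MP_9214e0_lc`): definitions.
-/

set_option autoImplicit false

namespace H14.BR

open ZFSet (pair)
open Pool.Agent.W868
open MeasureTheory H14.ES H46.RF

/-- the real `r` as a set: the graph of the function `ω → {0, 1}` -/
noncomputable def zr (r : ℕ → Bool) : ZFSet.{0} := ZFSet.range fun n : ℕ => pair (nat n) (bz (r n))

theorem mem_zr {r : ℕ → Bool} {z : ZFSet.{0}} : z ∈ zr r ↔ ∃ n, z = pair (nat n) (bz (r n)) := by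
  unfold zr
  rw [ZFSet.mem_range]
  constructor
  · rintro ⟨n, h⟩
    exact ⟨n, h.symm⟩
  · rintro ⟨n, h⟩
    exact ⟨n, h.symm⟩

/-- `x` is an element of `2 ^ ω` of `M` -/
def IsRealIn (M : Set ZFSet.{0}) (x : ZFSet.{0}) : Prop := x ∈ M ∧ ∃ r, x = zr r

/-- `S` is a `σ`-algebra of `M` on `2 ^ ω` which contains the basic clopen sets -/
structure IsSigma (M : Set ZFSet.{0}) (S : ZFSet.{0}) : Prop where
  mem : S ∈ M
  sub : ∀ b ∈ S, ∀ x ∈ b, IsRealIn M x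
  basic : ∀ r n, ∃ b ∈ S, ∀ x, x ∈ b ↔ IsRealIn M x ∧ ini r n ⊆ x
  compl : ∀ b ∈ S, ∃ c ∈ S, ∀ x, x ∈ c ↔ IsRealIn M x ∧ x ∉ b
  union : ∀ f ∈ M, ZFSet.IsFunc ZFSet.omega S f →
    ∃ c ∈ S, ∀ x, x ∈ c ↔ ∃ i b, pair i b ∈ f ∧ x ∈ b

/-- `b` is a Borel subset of `2 ^ ω` in `M`: a set of reals of `M` in `M`, which belongs to every
`σ`-algebra of `M` that contains the basic clopen sets -/
def IsBorelIn (M : Set ZFSet.{0}) (b : ZFSet.{0}) : Prop :=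
  b ∈ M ∧ (∀ x ∈ b, IsRealIn M x) ∧ ∀ S, IsSigma M S → b ∈ S

/-- `b` has measure zero in `M`: for every `k` it is covered by an open set coded in `M` by a set
`F` of words, of measure at most `2 ^ (-k)` -/
def IsNullIn (M : Set ZFSet.{0}) (b : ZFSet.{0}) : Prop :=
  ∀ k : ℕ, ∃ F ∈ M, (∀ z ∈ F, ∃ r n, z = ini r n) ∧
    mu ℕ {r | ∃ n, ini r n ∈ F} ≤ (2 ^ k)⁻¹ ∧ ∀ x ∈ b, ∃ z ∈ F, z ⊆ x

/-- random forcing of `M`: the Borel subsets of `2 ^ ω` of positive measure, computed in `M` -/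
def Rnd (M : Set ZFSet.{0}) : Set ZFSet.{0} := {b | IsBorelIn M b ∧ ¬ IsNullIn M b}

/-- `G` is an `M`-generic filter on random forcing -/
structure IsGenB (M : Set ZFSet.{0}) (G : Set ZFSet.{0}) : Prop where
  sub : G ⊆ Rnd M
  nonempty : G.Nonempty
  up : ∀ b ∈ G, ∀ c ∈ Rnd M, b ⊆ c → c ∈ G
  dir : ∀ b ∈ G, ∀ c ∈ G, ∃ d ∈ G, d ⊆ b ∧ d ⊆ c
  meet : ∀ D ∈ M, (∀ b ∈ D, b ∈ Rnd M) → (∀ c ∈ Rnd M, ∃ b ∈ D, b ⊆ c) → ∃ b ∈ D, b ∈ G

/-- the space of the `M`-generic filters of random forcing, as a subspace of `2 ^ 𝔹` -/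
def GenB (M : Set ZFSet.{0}) : Type 1 := {G : Set (Rnd M) // IsGenB M ((↑) '' G)}

/-- its Borel structure -/
instance (M : Set ZFSet.{0}) : MeasurableSpace (GenB M) :=
  inferInstanceAs (MeasurableSpace {G : Set (Rnd M) // IsGenB M ((↑) '' G)})

/-- `G ≡ H` iff `M[G] = M[H]` -/
def GenRelB (M : Set ZFSet.{0}) (G H : GenB M) : Prop :=
  ext M ((↑) '' G.1) = ext M ((↑) '' H.1)

/-! ### Auxiliary notions -/

/-- `b` is the closed set of `M` coded by `T` -/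
def IsB (M : Set ZFSet.{0}) (T b : ZFSet.{0}) : Prop :=
  ∀ x, x ∈ b ↔ ∃ s ∈ body T, x = zr s ∧ zr s ∈ M

/-- the closed set of `M` coded by `T` is contained in `b` -/
def Ins (M : Set ZFSet.{0}) (T b : ZFSet.{0}) : Prop := ∀ s ∈ body T, zr s ∈ M → zr s ∈ b

/-- the closed set of `M` coded by `T` is disjoint from `b` -/
def Out (M : Set ZFSet.{0}) (T b : ZFSet.{0}) : Prop := ∀ s ∈ body T, zr s ∈ M → zr s ∉ b

/-- `b` is regular: up to measure `2 ^ (-k)`, a closed set inside and a closed set outside -/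
def Reg (M : Set ZFSet.{0}) (b : ZFSet.{0}) : Prop := ∀ k : ℕ, ∃ T ∈ M, ∃ T' ∈ M, IsTree T ∧
  IsTree T' ∧ Ins M T b ∧ Out M T' b ∧ 1 ≤ mu ℕ (body (T ∪ T')) + (2 ^ k)⁻¹

/-- the generic filter on the Borel sets given by the generic filter on the trees -/
def st (M : Set ZFSet.{0}) (G : Set ZFSet.{0}) : Set ZFSet.{0} := {b | b ∈ Rnd M ∧ ∃ T ∈ G, Ins M T b}

end H14.BR
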